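import Pool.Agent.H.MP_120e55_lc.G

set_option autoImplicit false

namespace Pool.Agent.Results.MP_120e55_lc.No

open Pool.Agent.Lib.helper21.PR Pool.Agent.H.MP_120e55_lc

/-- initial segment of length `m` of a real -/
def seg (x : ℕ → Bool) (m : ℕ) : List Bool := (List.range m).map x

/-- characteristic function, used as an oracle -/
def chi (x : ℕ → Bool) : ℕ →. ℕ := fun n => Part.some (x n).toNat

/-- `o` is the order type of a well-ordering, computable in `x`, of a set of numbers computable in `x` -/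
def CompOrd (x : ℕ → Bool) (o : Ordinal.{0}) : Prop :=
  ∃ (S : ℕ → Bool) (r : ℕ → ℕ → Bool), TuringReducible (chi S) (chi x) ∧
    TuringReducible (chi fun n => r n.unpair.1 n.unpair.2) (chi x) ∧
    ∃ _ : IsWellOrder {n // S n = true} (fun a b => r a b = true),
      Ordinal.type (fun a b : {n // S n = true} => r a b = true) = o

/-- the least ordinal that is not computable relative to `x` -/
noncomputable def omegaCK (x : ℕ → Bool) : Ordinal.{0} := sInf {o | ¬ CompOrd x o}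

/-- lightface coanalytic sets of numbers relative to `z` -/
def Pi11 (z : ℕ → Bool) (X : Set ℕ) : Prop :=
  ∃ R : ℕ × List Bool × List ℕ → Prop, ComputablePred R ∧
    ∀ n, n ∈ X ↔ ∀ f : ℕ → ℕ, ∃ m, R (n, seg z m, (List.range m).map f)

/-- `γ` is hyperarithmetic in `z` -/
def Hyp (γ z : ℕ → Bool) : Prop := Pi11 z {n | γ n = true} ∧ Pi11 z {n | γ n = false}

/-- lightface analytic sets of reals relative to `y` -/
def Sigma11 (y : ℕ → Bool) (A : Set (ℕ → Bool)) : Prop :=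
  ∃ R : List Bool × List Bool × List ℕ → Prop, ComputablePred R ∧
    ∀ x, x ∈ A ↔ ∃ f : ℕ → ℕ, ∀ m, R (seg x m, seg y m, (List.range m).map f)

/-- Turing join of four reals -/
def join4 (x : Fin 4 → ℕ → Bool) (n : ℕ) : Bool := x (Fin.ofNat 4 n) (n / 4)

def JoinProperty (A : Set (ℕ → Bool)) : Prop :=
  ∀ γ : ℕ → Bool, ∃ x : Fin 4 → ℕ → Bool, (∀ i, x i ∈ A) ∧ Hyp γ (join4 x)

theorem co_iff {x : ℕ → Bool} {o : Ordinal.{0}} : CompOrd x o ↔ CO x o :=
  exists₂_congr fun _ _ => and_congr ⟨CI.of_orc, CI.orc⟩ (and_congr_left' ⟨CI.of_orc, CI.orc⟩)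

theorem result : ¬ ∀ (y : ℕ → Bool) (A : Set (ℕ → Bool)), Sigma11 y A →
    (∃ x ∈ A, omegaCK y < omegaCK x) → JoinProperty A := by
  intro H
  obtain ⟨y, P, cv, x₀, γ, h1, h2, h3, h4, h5⟩ := main
  obtain ⟨κ, k1, k2⟩ := kbCO h3
  have l1 : omegaCK y ≤ κ := csInf_le' fun z => by
    obtain ⟨e, r, a1, a2, a3⟩ := (co_iff.1 z).top
    obtain ⟨ξ, b1, i, ρ, b2, b3⟩ := h4 e r a1 a2 0
    exact (b1 _ a3).not_gt (b2.trans (k2 _ _ b3))
  have l2 : κ < omegaCK (hat x₀) := by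
    have : omegaCK (hat x₀) ∈ {o | ¬ CompOrd (hat x₀) o} := csInf_mem ⟨oo, fun z => (co_iff.1 z).lt.false⟩
    exact not_le.1 fun z => this (co_iff.2 (z.lt_or_eq.elim k1.down (· ▸ k1)))
  obtain ⟨x, a1, a2, a3⟩ := H y {z | ∃ x, Mem P cv x ∧ z = hat x} (sigma h1) ⟨_, ⟨x₀, h2, rfl⟩, l1.trans_lt l2⟩
    fun n => cd (n ∈ γ)
  choose u u1 u2 using a1
  obtain rfl : x = fun i => hat (u i) := funext u2
  have key : ∀ X, Pi11 (join4 fun i => hat (u i)) X → ∃ c, ∀ n, n ∈ X ↔ WFb c n (join fun i => hat (u i)) :=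
    fun X ⟨R, r1, r2⟩ => by
      obtain ⟨c, hc⟩ := Nat.Partrec.Code.exists_code.mp r1.to_re
      refine ⟨Encodable.encode c, fun n => (r2 n).trans (forall_congr' fun f => exists_congr fun m => ?_)⟩
      rw [Denumerable.ofNat_encode, hc, Part.dom_iff_mem]
      simp only [Encodable.encodek, Part.coe_some, Part.bind_some, Part.mem_map_iff, Part.mem_assert_iff]
      exact ⟨fun z => ⟨_, (), ⟨z, Part.mem_some _⟩, rfl⟩, fun ⟨_, _, ⟨z, _⟩, _⟩ => z⟩
  obtain ⟨c, hc⟩ := key _ a2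
  obtain ⟨c', hc'⟩ := key _ a3
  exact h5 u u1 c c' fun n => ⟨cd_true.symm.trans (hc n), by
    rw [← hc', Set.mem_setOf_eq, ← Bool.not_eq_true, cd_true]⟩

end Pool.Agent.Results.MP_120e55_lc.No
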